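import Pool.Agent.W836.SH.Stm

/-! Project SH: scaling by signs, projections. -/

set_option autoImplicit false

namespace Pool.Agent.W672.SH

open scoped Classical
open Pool.Agent.W836.SH

theorem abs_prod_pm {k : ℕ} (d : Fin k → ℝ) (hd : ∀ i, pm (d i)) : |∏ i, d i| = 1 := by
  rw [Finset.abs_prod]
  apply Finset.prod_eq_one
  intro i _
  rcases hd i with h | h <;> rw [h] <;> simp

theorem sl : S_SL := by
  intro ι V hV k r c d e M hc hd he h
  have h1 := hV k r c hc
  have h2 : (Matrix.of fun i j => c j (r i) : Matrix (Fin k) (Fin k) ℝ) =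
      Matrix.of (fun i j => e j * (Matrix.of (fun i j => d i * M i j) : Matrix (Fin k) (Fin k) ℝ) i j) := by
    ext i j
    simp only [Matrix.of_apply]
    rw [h i j]
    ring
  rw [h2, Matrix.det_mul_row, Matrix.det_mul_column, abs_mul, abs_mul, abs_prod_pm e he,
    abs_prod_pm d hd, one_mul, one_mul] at h1
  exact h1

theorem ts_mono {ι : Type} {V W : Finset (ι → ℝ)} (h : W ⊆ V) (hV : TS V) : TS W :=
  fun k r c hc => hV k r c fun j => h (hc j)

theorem ts_pr {ι : Type} {V : Finset (ι → ℝ)} (I : Finset ι) (hV : TS V) : TS (pr I V) := by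
  intro k r c hc
  have h1 : ∀ j, ∃ v ∈ V, res I v = c j := fun j => Finset.mem_image.1 (hc j)
  choose v hv hvc using h1
  by_cases hr : ∀ i, r i ∈ I
  · have h2 : (Matrix.of fun i j => c j (r i) : Matrix (Fin k) (Fin k) ℝ) =
        Matrix.of fun i j => v j (r i) := by
      ext i j
      simp only [Matrix.of_apply]
      rw [← hvc j, res, if_pos (hr i)]
    rw [h2]
    exact hV k r v hv
  · push Not at hr
    obtain ⟨i, hi⟩ := hr
    rw [Matrix.det_eq_zero_of_row_eq_zero i]
    · simp
    · intro j
      simp only [Matrix.of_apply]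
      rw [← hvc j, res, if_neg hi]

theorem tspr : S_TSPR := by
  intro ι V I s hV
  refine ⟨ts_pr I hV, ts_mono ?_ (ts_pr I hV), ?_⟩
  · exact Finset.image_subset_image (Finset.filter_subset _ _)
  · intro k r c hc
    have h1 : ∀ j, ∃ (v : ι → ℝ) (e : ℝ), v ∈ V ∧ pm e ∧ ∀ i, c j i = e * v i := by
      intro j
      rcases Finset.mem_union.1 (hc j) with h | h
      · exact ⟨c j, 1, h, Or.inl rfl, fun i => by rw [one_mul]⟩
      · obtain ⟨v, hv, hvc⟩ := Finset.mem_image.1 h
        refine ⟨v, -1, hv, Or.inr rfl, fun i => ?_⟩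
        rw [← hvc]
        simp
    choose v e hv he hce using h1
    have h2 : (Matrix.of fun i j => c j (r i) : Matrix (Fin k) (Fin k) ℝ) =
        Matrix.of (fun i j => e j * (Matrix.of (fun i j => v j (r i)) : Matrix (Fin k) (Fin k) ℝ) i j) := by
      ext i j
      simp only [Matrix.of_apply]
      rw [hce j]
    rw [h2, Matrix.det_mul_row, abs_mul, abs_prod_pm e he, one_mul]
    exact hV k r v hv

end Pool.Agent.W672.SH
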